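import Pool.Agent.H174.GP.StA
import Pool.Agent.H174.GP.StP
import Pool.Agent.H174.GP.StC
import Pool.Agent.H174.GP.StB

/-! # GP bin1: binomial upper bound -/

set_option autoImplicit false

open MeasureTheory ProbabilityTheory Finset Filter Topology

namespace Pool.Agent.H213.GP174.Bin1

open Pool.Agent.H174.GP

theorem bn_nonneg {n : ℕ} {p : ℝ} (h0 : 0 ≤ p) (h1 : p ≤ 1) (k : ℕ) : 0 ≤ bn n p k := by
  unfold bn
  have : 0 ≤ 1 - p := by linarith
  positivity

theorem bn_zero {n : ℕ} {p : ℝ} {k : ℕ} (h : n < k) : bn n p k = 0 := by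
  unfold bn
  rw [Nat.choose_eq_zero_of_lt h]
  simp

theorem bn_sum (n : ℕ) (p : ℝ) : ∑ k ∈ Finset.range (n + 1), bn n p k = 1 := by
  have h := add_pow p (1 - p) n
  rw [show p + (1 - p) = 1 by ring, one_pow] at h
  rw [h]
  apply Finset.sum_congr rfl
  intro k _
  unfold bn
  ring

theorem bn_sum_le {n : ℕ} {p : ℝ} (h0 : 0 ≤ p) (h1 : p ≤ 1) (s : Finset ℕ) :
    ∑ k ∈ s, bn n p k ≤ 1 := by
  rw [← bn_sum n p]
  have h2 : ∑ k ∈ s, bn n p k = ∑ k ∈ s.filter (fun k => k ≤ n), bn n p k := by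
    rw [Finset.sum_filter]
    apply Finset.sum_congr rfl
    intro k _
    by_cases h : k ≤ n
    · rw [if_pos h]
    · rw [if_neg h]
      exact bn_zero (not_le.1 h)
  rw [h2]
  apply Finset.sum_le_sum_of_subset_of_nonneg
  · intro k hk
    rw [Finset.mem_filter] at hk
    exact Finset.mem_range.2 (Nat.lt_succ_of_le hk.2)
  · intro k _ _
    exact bn_nonneg h0 h1 k

theorem bn_step {n : ℕ} {p : ℝ} {k : ℕ} (h : k < n) :
    ((k : ℝ) + 1) * (1 - p) * bn n p (k + 1) = ((n : ℝ) - k) * p * bn n p k := by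
  unfold bn
  have h1 : ((n.choose (k + 1) : ℕ) : ℝ) * ((k : ℝ) + 1) = (n.choose k : ℝ) * ((n : ℝ) - k) := by
    have h2 := Nat.choose_succ_right_eq n k
    have h3 : ((n.choose (k + 1) * (k + 1) : ℕ) : ℝ) = ((n.choose k * (n - k) : ℕ) : ℝ) := by
      rw [h2]
    rw [Nat.cast_mul, Nat.cast_mul, Nat.cast_sub h.le] at h3
    rw [Nat.cast_add, Nat.cast_one] at h3
    exact h3
  have h4 : (1 - p) ^ (n - k) = (1 - p) * (1 - p) ^ (n - (k + 1)) := by
    rw [← pow_succ']
    congr 1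
    omega
  rw [h4, pow_succ]
  calc ((k : ℝ) + 1) * (1 - p) * ((n.choose (k + 1) : ℝ) * (p ^ k * p) * (1 - p) ^ (n - (k + 1)))
      = ((n.choose (k + 1) : ℝ) * ((k : ℝ) + 1)) * ((1 - p) * (p ^ k * p) * (1 - p) ^ (n - (k + 1))) := by
        ring
    _ = ((n.choose k : ℝ) * ((n : ℝ) - k)) * ((1 - p) * (p ^ k * p) * (1 - p) ^ (n - (k + 1))) := by
        rw [h1]
    _ = _ := by ring

theorem bn_down {n : ℕ} {p : ℝ} (h0 : 0 < p) (h1 : p < 1) {k : ℕ}
    (hk : ((n : ℝ) + 1) * p ≤ k + 1) : bn n p (k + 1) ≤ bn n p k := by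
  rcases Nat.lt_or_ge k n with h | h
  · have h2 := bn_step (p := p) h
    have h3 : ((n : ℝ) - k) * p ≤ ((k : ℝ) + 1) * (1 - p) := by nlinarith
    have h4 : 0 < ((k : ℝ) + 1) * (1 - p) := by
      have : 0 < 1 - p := by linarith
      positivity
    have h5 := mul_le_mul_of_nonneg_right h3 (bn_nonneg h0.le h1.le k (n := n))
    rw [← h2] at h5
    exact le_of_mul_le_mul_left h5 h4
  · rw [bn_zero (Nat.lt_succ_of_le h)]
    exact bn_nonneg h0.le h1.le k

theorem bn_up {n : ℕ} {p : ℝ} (h0 : 0 < p) (h1 : p < 1) {k : ℕ}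
    (hk : (k : ℝ) + 1 ≤ ((n : ℝ) + 1) * p) : bn n p k ≤ bn n p (k + 1) := by
  have h : k < n := by
    have h2 : (k : ℝ) + 1 < (n : ℝ) + 1 := by
      have h3 : ((n : ℝ) + 1) * p < ((n : ℝ) + 1) * 1 := by
        apply mul_lt_mul_of_pos_left h1
        positivity
      linarith
    have h4 : (k : ℝ) < n := by linarith
    exact_mod_cast h4
  have h2 := bn_step (p := p) h
  have h3 : ((k : ℝ) + 1) * (1 - p) ≤ ((n : ℝ) - k) * p := by nlinarith
  have h4 : 0 < ((k : ℝ) + 1) * (1 - p) := by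
    have : 0 < 1 - p := by linarith
    positivity
  have h5 := mul_le_mul_of_nonneg_right h3 (bn_nonneg h0.le h1.le k (n := n))
  rw [← h2] at h5
  exact le_of_mul_le_mul_left h5 h4

theorem bn_mode {n : ℕ} {p : ℝ} (h0 : 0 < p) (h1 : p < 1) (k : ℕ) :
    bn n p k ≤ bn n p ⌊((n : ℝ) + 1) * p⌋₊ := by
  have hnn : 0 ≤ ((n : ℝ) + 1) * p := by positivity
  rcases le_total ⌊((n : ℝ) + 1) * p⌋₊ k with h | h
  · obtain ⟨i, rfl⟩ := Nat.exists_eq_add_of_le h
    clear h
    induction i with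
    | zero => exact le_refl _
    | succ i ih =>
      refine le_trans ?_ ih
      apply bn_down h0 h1
      have h2 := Nat.lt_floor_add_one (((n : ℝ) + 1) * p)
      have h3 : (0 : ℝ) ≤ i := Nat.cast_nonneg i
      have h4 : ((⌊((n : ℝ) + 1) * p⌋₊ + i : ℕ) : ℝ) = (⌊((n : ℝ) + 1) * p⌋₊ : ℝ) + i :=
        Nat.cast_add _ _
      have h5 : ((n : ℝ) + 1) * p ≤ ((⌊((n : ℝ) + 1) * p⌋₊ + i : ℕ) : ℝ) + 1 := by
        rw [h4]
        linarith
      exact h5
  · obtain ⟨i, hi⟩ := Nat.exists_eq_add_of_le h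
    clear h
    induction i generalizing k with
    | zero => rw [hi, Nat.add_zero]
    | succ i ih =>
      have h3 : ((k : ℝ) + 1) ≤ ((n : ℝ) + 1) * p := by
        have h2 := Nat.floor_le hnn
        have h4 : k + 1 ≤ ⌊((n : ℝ) + 1) * p⌋₊ := by omega
        have h5 : ((k + 1 : ℕ) : ℝ) ≤ (⌊((n : ℝ) + 1) * p⌋₊ : ℝ) := Nat.cast_le.2 h4
        rw [Nat.cast_add, Nat.cast_one] at h5
        linarith
      exact (bn_up h0 h1 h3).trans (ih (k + 1) (by omega))

theorem bn_le_one {n : ℕ} {p : ℝ} (h0 : 0 ≤ p) (h1 : p ≤ 1) (k : ℕ) : bn n p k ≤ 1 := by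
  have h := bn_sum_le h0 h1 {k} (n := n)
  rwa [Finset.sum_singleton] at h

/-- **S_bin1** -/
theorem gp_bin1 (h1 : S_bin2) : Pool.Agent.H174.GP.S_bin1 := by
  intro p0 hp0 hp0'
  obtain ⟨C, hC, c0, hc0, H⟩ := h1 p0 hp0 hp0'
  set N : ℝ := (2 / c0) ^ 2 + 1 with hN
  have hN1 : 1 ≤ N := by
    have : 0 ≤ (2 / c0) ^ 2 := sq_nonneg _
    linarith
  refine ⟨Real.sqrt (N + 1) + 4 * Real.exp (2 * C), by positivity, ?_⟩
  intro p n k hp hp'
  have hp1 : 0 < p := by linarith
  have hp2 : p < 1 := by linarith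
  have hs1 : 0 < Real.sqrt ((n : ℝ) + 1) := Real.sqrt_pos.2 (by positivity)
  rw [le_div_iff₀ hs1]
  rcases lt_or_ge (n : ℝ) N with hn | hn
  · have h2 : Real.sqrt ((n : ℝ) + 1) ≤ Real.sqrt (N + 1) := Real.sqrt_le_sqrt (by linarith)
    calc bn n p k * Real.sqrt ((n : ℝ) + 1) ≤ 1 * Real.sqrt (N + 1) :=
          mul_le_mul (bn_le_one hp1.le hp2.le k) h2 hs1.le zero_le_one
      _ ≤ _ := by
          have := Real.exp_pos (2 * C)
          linarith
  · have hn1 : (1 : ℝ) ≤ n := hN1.trans hn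
    have hn1' : 1 ≤ n := by exact_mod_cast hn1
    set q := ⌊((n : ℝ) + 1) * p⌋₊ with hq
    have hnn : 0 ≤ ((n : ℝ) + 1) * p := by positivity
    have hq1 : (q : ℝ) ≤ ((n : ℝ) + 1) * p := Nat.floor_le hnn
    have hq2 : ((n : ℝ) + 1) * p < q + 1 := Nat.lt_floor_add_one _
    have hsn : 1 ≤ Real.sqrt n := Real.one_le_sqrt.2 hn1
    have hsq : Real.sqrt n * Real.sqrt n = n := Real.mul_self_sqrt (by linarith)
    have hu : (2 : ℝ) ≤ c0 * Real.sqrt n := by
      have h3 : 2 / c0 ≤ Real.sqrt n := by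
        apply Real.le_sqrt_of_sq_le
        linarith
      rw [div_le_iff₀ hc0] at h3
      linarith
    set m := ⌊Real.sqrt n / 2⌋₊ with hm
    have hm1 : (m : ℝ) ≤ Real.sqrt n / 2 := Nat.floor_le (by positivity)
    have hm2 : Real.sqrt n / 2 < m + 1 := Nat.lt_floor_add_one _
    have hqa : |(q : ℝ) - p * n| ≤ 2 * Real.sqrt n := by
      rw [abs_le]
      constructor
      · linarith
      · linarith
    have hcmp : ∀ j ∈ Finset.Icc q (q + m), bn n p q ≤ bn n p j * Real.exp (2 * C) := by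
      intro j hj
      rw [Finset.mem_Icc] at hj
      have hj1 : (q : ℝ) ≤ j := Nat.cast_le.2 hj.1
      have hj2 : (j : ℝ) ≤ q + m := by
        have : (j : ℝ) ≤ ((q + m : ℕ) : ℝ) := Nat.cast_le.2 hj.2
        rwa [Nat.cast_add] at this
      have hja : |(j : ℝ) - p * n| ≤ 2 * Real.sqrt n := by
        rw [abs_le]
        constructor
        · linarith
        · linarith
      have h4 := H p 2 n q j hp hp' hn1' (by norm_num) hu hqa hja
      refine h4.trans ?_
      apply mul_le_mul_of_nonneg_left _ (bn_nonneg hp1.le hp2.le j)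
      apply Real.exp_le_exp.2
      have h5 : |(q : ℝ) - j| ≤ Real.sqrt n / 2 := by
        rw [abs_le]
        constructor
        · linarith
        · linarith
      rw [div_le_iff₀ (by linarith : (0 : ℝ) < n)]
      calc C * |(q : ℝ) - j| * (2 * Real.sqrt n + 1)
          ≤ C * (Real.sqrt n / 2) * (2 * Real.sqrt n + Real.sqrt n) := by
            apply mul_le_mul
            · exact mul_le_mul_of_nonneg_left h5 hC.le
            · linarith
            · positivity
            · positivity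
        _ = (3 / 2) * C * (Real.sqrt n * Real.sqrt n) := by ring
        _ ≤ 2 * C * n := by
            rw [hsq]
            nlinarith
    have hsum : ((m : ℝ) + 1) * bn n p q ≤ Real.exp (2 * C) := by
      have h6 : ∑ j ∈ Finset.Icc q (q + m), bn n p q ≤
          ∑ j ∈ Finset.Icc q (q + m), bn n p j * Real.exp (2 * C) := Finset.sum_le_sum hcmp
      rw [Finset.sum_const, Nat.card_Icc, ← Finset.sum_mul, nsmul_eq_mul] at h6
      have h7 : q + m + 1 - q = m + 1 := by omega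
      rw [h7, Nat.cast_add, Nat.cast_one] at h6
      have h8 := bn_sum_le hp1.le hp2.le (Finset.Icc q (q + m)) (n := n)
      calc ((m : ℝ) + 1) * bn n p q ≤ (∑ j ∈ Finset.Icc q (q + m), bn n p j) * Real.exp (2 * C) := h6
        _ ≤ 1 * Real.exp (2 * C) := mul_le_mul_of_nonneg_right h8 (Real.exp_pos _).le
        _ = _ := one_mul _
    have h9 : Real.sqrt ((n : ℝ) + 1) ≤ 4 * ((m : ℝ) + 1) := by
      have h10 : Real.sqrt ((n : ℝ) + 1) ≤ 2 * Real.sqrt n := by
        rw [Real.sqrt_le_left (by positivity)]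
        rw [mul_pow, Real.sq_sqrt (by linarith : (0 : ℝ) ≤ n)]
        linarith
      linarith
    have hb := bn_nonneg hp1.le hp2.le q (n := n)
    calc bn n p k * Real.sqrt ((n : ℝ) + 1) ≤ bn n p q * (4 * ((m : ℝ) + 1)) :=
          mul_le_mul (bn_mode hp1 hp2 k) h9 hs1.le hb
      _ = 4 * (((m : ℝ) + 1) * bn n p q) := by ring
      _ ≤ 4 * Real.exp (2 * C) := by linarith
      _ ≤ _ := by
          have := Real.sqrt_nonneg (N + 1)
          linarith

end Pool.Agent.H213.GP174.Bin1
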